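import Mathlib
import Pool.Agent.H533R3.SL.Unif

set_option autoImplicit false

/-!
# Lang's strong conjecture for sparse points

Let `X` be an integral closed subvariety of projective `n`-space over a number field `k` which is
not uniruled, for example a variety of general type of positive dimension.  For each `r` there is a
proper closed subset `Z` of `X`, defined over `k`, such that for every finite extension `K` of `k`
and all `B` the points of `X (K)` outside `Z` whose homogeneous coordinates are integral and
`r`-sparse in some base `b ≥ 2`, with digits of house at most `B`, are finite in number and have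
explicitly bounded size.  Neither `Z` nor the bound depends on `K` or on the base; `Z` does not
depend on `B` either.

Method: such a point of large size lies on a nonconstant rational curve in `X` with `r` terms; the
exponents of these curves matter only through finitely many patterns of coincidences, and for each
pattern the curves form an algebraic family, which does not dominate `X`.
-/

namespace Pool.Agent.Results.MP_7ede32_ag.SparseStrong

open NumberField Pool.Agent.H458.Sp Pool.Agent.H533R3.SL

theorem result (k : Type) [Field k] [NumberField k] (n : ℕ)
    (FF : Finset (MvPolynomial (Fin (n + 1)) (𝓞 k))) (d : ℕ) (hd : 1 ≤ d) (A : ℝ) (hA : 1 ≤ A)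
    (hFF : ∀ F ∈ FF, (∃ e, e ≤ d ∧ F.IsHomogeneous e) ∧ nrm F ≤ A)
    (hprime : (idealK FF).IsPrime) (hnu : ¬ Uniruled (idealK FF)) (r : ℕ) (hr : 1 ≤ r) :
    ∃ G : MvPolynomial (Fin (n + 1)) k, (∃ e, G.IsHomogeneous e) ∧ G ∉ idealK FF ∧
      ∀ B : ℝ, 1 ≤ B → ∀ (K : Type) [Field K] [NumberField K] [Algebra k K],
        (offPoints FF G r B K).Finite ∧
        offPoints FF G r B K ⊆ smallPoints K n
          (Real.exp ((8 * d * (6 + 8 * d + 4 * Real.log A)) ^ r *
            (1 + Real.log B + Real.log (A * (r * B) ^ d)))) := by
  obtain ⟨G, h1, h2, h3⟩ := strong_uniform k n FF d hd A hA hFF hprime hnu r hr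
  refine ⟨G, h1, h2, fun B hB K _ _ _ => ⟨?_, h3 B hB K⟩⟩
  exact (smallPoints_finite n _).subset (h3 B hB K)

end Pool.Agent.Results.MP_7ede32_ag.SparseStrong
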