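import Mathlib
import Pool.Agent.H533R3.SL.UOff

/-!
# The strong Lang conjecture for sparse points, with a uniform number of exceptions

Let `X` be an integral closed subvariety of projective `n`-space over a number field `k`, cut out
by `N` forms of degree at most `d`, which is not uniruled.  For every `r` there is a proper closed
subset `Z` of `X`, independent of everything below, such that for every finite extension `K` of
`k`, every nonzero nonunit `b` of `𝓞 K` and every finite set `V` of digits in `𝓞 K`, at most
`#V ^ ((n + 1) r) ((((d + 1) ^ r)!) ^ 2) ^ N` points of `X(K)` off `Z` have homogeneous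
coordinates that are combinations of the same `r` powers of `b` with coefficients in `V`.
The bound depends neither on `b` and `K` nor on the coefficients of the equations of `X`.
-/

namespace Pool.Agent.Results.MP_7ede32_ag.UniformCount

open NumberField MvPolynomial Pool.Agent.H533R3.SL

/-- the bound, which depends only on the number and the degree of the forms, on the number `r` of
powers and on the number `c` of digits -/
def bound (n N d r : ℕ) (c : ℕ) : ℕ :=
  c ^ ((n + 1) * r) * ((Nat.factorial ((d + 1) ^ r)) ^ 2) ^ N

theorem result (k : Type) [Field k] [NumberField k] (n N : ℕ)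
    (P : Fin N → MvPolynomial (Fin (n + 1)) (𝓞 k)) (d : ℕ) (hd : 1 ≤ d)
    (hP : ∀ i, ∃ e, e ≤ d ∧ (P i).IsHomogeneous e) (hprime : (idealP P).IsPrime)
    (hnu : ¬ Uniruled (idealP P)) (r : ℕ) :
    ∃ G : MvPolynomial (Fin (n + 1)) k, (∃ e, G.IsHomogeneous e) ∧ G ∉ idealP P ∧
      ∀ (K : Type) [Field K] [NumberField K] [Algebra k K] (b : 𝓞 K), b ≠ 0 → ¬ IsUnit b →
        ∀ V : Finset (𝓞 K), (sparseOff P G K b r V).encard ≤ (bound n N d r V.card : ℕ∞) :=
  card_sparseOff k P d hd hP hprime hnu r

end Pool.Agent.Results.MP_7ede32_ag.UniformCount
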